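import Mathlib
import Pool.Agent.H67.Flat.Assemble

set_option autoImplicit false

/-!
# Broadhurst's congruence conditions for flat ternary cyclotomic polynomials

All the conclusions of Broadhurst's question hold whenever `q ≡ ±1 mod p` or `r ≡ ±1 mod p`
(equivalently `w ≡ ±1 mod p`).
-/

namespace Pool.Agent.Results.MP_e44043_nt.QOrRPlusMinusOne

open Pool.Agent.H67.Flat

theorem result :
    ∀ p q r w : ℕ, p.Prime → q.Prime → r.Prime → Odd p → p < q → q < r →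
      (∀ k : ℕ, |(Polynomial.cyclotomic (p * q * r) ℤ).coeff k| ≤ 1) →
      0 < w →
      ((r : ℤ) ≡ (w : ℤ) [ZMOD ((p : ℤ) * q)] ∨ (r : ℤ) ≡ -(w : ℤ) [ZMOD ((p : ℤ) * q)]) →
      (∀ v : ℕ, 0 < v → v < w →
        ¬ ((r : ℤ) ≡ (v : ℤ) [ZMOD ((p : ℤ) * q)] ∨ (r : ℤ) ≡ -(v : ℤ) [ZMOD ((p : ℤ) * q)])) →
      ¬ p ≡ 1 [MOD w] →
      ((q : ℤ) ≡ 1 [ZMOD (p : ℤ)] ∨ (q : ℤ) ≡ -1 [ZMOD (p : ℤ)] ∨
        (w : ℤ) ≡ 1 [ZMOD (p : ℤ)] ∨ (w : ℤ) ≡ -1 [ZMOD (p : ℤ)]) →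
      (p < w ∧ p ^ 2 - p < q ∧
        ((q : ℤ) ≡ 1 [ZMOD (p : ℤ)] ∨ (q : ℤ) ≡ -1 [ZMOD (p : ℤ)]) ∧
        ((w : ℤ) ≡ 1 [ZMOD (p : ℤ)] ∨ (w : ℤ) ≡ -1 [ZMOD (p : ℤ)]) ∧
        ((w : ℤ) ≡ 1 [ZMOD (p : ℤ)] →
          ¬ ((q : ℤ) ≡ 1 [ZMOD ((w : ℤ) * p)] ∨ (q : ℤ) ≡ -1 [ZMOD ((w : ℤ) * p)]))) := by
  intro p q r w hp hq hr hodd hpq hqr hflat hw0 hrw hmin hpw hmod
  have hp3 : 3 ≤ p := by
    have h2 := hp.two_le
    obtain ⟨k, hk⟩ := hodd
    omega
  have hp3' : (3 : ℤ) ≤ p := by exact_mod_cast hp3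
  have hpq' : (p : ℤ) < q := by exact_mod_cast hpq
  have hN : 0 < (p : ℤ) * q := by
    have : (0 : ℤ) < q := by omega
    positivity
  have hm1 : ∀ a n : ℤ, a ≡ 1 [ZMOD n] ↔ n ∣ a - 1 := fun a n =>
    ⟨fun h => h.symm.dvd, fun h => (Int.modEq_of_dvd h).symm⟩
  have hm2 : ∀ a n : ℤ, a ≡ -1 [ZMOD n] ↔ n ∣ a + 1 := fun a n =>
    ⟨fun h => by simpa using h.symm.dvd, fun h => (Int.modEq_of_dvd (by simpa using h)).symm⟩
  have hrW : (p : ℤ) * q ∣ r - w ∨ (p : ℤ) * q ∣ r + w := by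
    rcases hrw with h | h
    · left; exact h.symm.dvd
    · right; simpa using h.symm.dvd
  have hwp : ¬ (w : ℤ) ∣ (p : ℤ) - 1 := by
    intro h
    apply hpw
    have h1 : (p : ℤ) ≡ 1 [ZMOD (w : ℤ)] := (hm1 _ _).mpr h
    exact (Int.natCast_modEq_iff).mp (by exact_mod_cast h1)
  -- minimality gives `2 w ≤ p q`
  have hwN : (w : ℤ) < p * q := by
    by_contra hcon
    push Not at hcon
    have h1 := Int.emod_nonneg (r : ℤ) hN.ne'
    have h2 := Int.emod_lt_of_pos (r : ℤ) hN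
    have h0 : 0 < (r : ℤ) % ((p : ℤ) * q) := by
      rcases h1.lt_or_eq with h | h
      · exact h
      · exfalso
        have h3 : (p : ℤ) * q ∣ r := Int.dvd_of_emod_eq_zero h.symm
        have h4 : p ∣ r := by
          have : (p : ℤ) ∣ r := (dvd_mul_right _ _).trans h3
          exact_mod_cast this
        rcases (Nat.dvd_prime hr).mp h4 with h5 | h5 <;> omega
    refine hmin ((r : ℤ) % ((p : ℤ) * q)).toNat (by omega) (by omega) (Or.inl ?_)
    rw [Int.toNat_of_nonneg h1]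
    exact (Int.mod_modEq _ _).symm
  have hw2 : 2 * (w : ℤ) ≤ p * q := by
    by_contra hcon
    push Not at hcon
    refine hmin ((p : ℤ) * q - w).toNat (by omega) (by omega) ?_
    rw [Int.toNat_of_nonneg (by omega)]
    rcases hrW with h | h
    · right
      refine (Int.modEq_of_dvd ?_).symm
      have e : (r : ℤ) - -((p : ℤ) * q - w) = (r - w) + p * q := by ring
      rw [e]; exact dvd_add h (dvd_refl _)
    · left
      refine (Int.modEq_of_dvd ?_).symm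
      have e : (r : ℤ) - ((p : ℤ) * q - w) = (r + w) - p * q := by ring
      rw [e]; exact dvd_sub h (dvd_refl _)
  have hmod' : (p : ℤ) ∣ q - 1 ∨ (p : ℤ) ∣ q + 1 ∨ (p : ℤ) ∣ r - 1 ∨ (p : ℤ) ∣ r + 1 := by
    rcases hmod with h | h | h | h
    · exact Or.inl ((hm1 _ _).mp h)
    · exact Or.inr (Or.inl ((hm2 _ _).mp h))
    · have h1 := (hm1 _ _).mp h
      rcases hrW with h2 | h2
      · have h3 : (p : ℤ) ∣ r - w := (dvd_mul_right _ _).trans h2
        right; right; left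
        have e : (r : ℤ) - 1 = (r - w) + (w - 1) := by ring
        rw [e]; exact dvd_add h3 h1
      · have h3 : (p : ℤ) ∣ r + w := (dvd_mul_right _ _).trans h2
        right; right; right
        have e : (r : ℤ) + 1 = (r + w) - (w - 1) := by ring
        rw [e]; exact dvd_sub h3 h1
    · have h1 := (hm2 _ _).mp h
      rcases hrW with h2 | h2
      · have h3 : (p : ℤ) ∣ r - w := (dvd_mul_right _ _).trans h2
        right; right; right
        have e : (r : ℤ) + 1 = (r - w) + (w + 1) := by ring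
        rw [e]; exact dvd_add h3 h1
      · have h3 : (p : ℤ) ∣ r + w := (dvd_mul_right _ _).trans h2
        right; right; left
        have e : (r : ℤ) - 1 = (r + w) - (w + 1) := by ring
        rw [e]; exact dvd_sub h3 h1
  obtain ⟨h1, h2, h3, h4, h5⟩ := conc hp hq hr hp3 hpq hqr hflat (W := (w : ℤ)) hrW
    (by exact_mod_cast hw0) hw2 hwp hmod'
  refine ⟨by exact_mod_cast h1, ?_, ?_, ?_, ?_⟩
  · have e : ((p ^ 2 - p : ℕ) : ℤ) = (p : ℤ) * (p - 1) := by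
      rw [Nat.cast_sub (by nlinarith)]; push_cast; ring
    have : ((p ^ 2 - p : ℕ) : ℤ) < (q : ℤ) := by rw [e]; exact h2
    exact_mod_cast this
  · rcases h3 with h | h
    · exact Or.inl ((hm1 _ _).mpr h)
    · exact Or.inr ((hm2 _ _).mpr h)
  · rcases h4 with h | h
    · exact Or.inl ((hm1 _ _).mpr h)
    · exact Or.inr ((hm2 _ _).mpr h)
  · intro h hcon
    refine h5 ((hm1 _ _).mp h) ?_
    rcases hcon with h' | h'
    · exact Or.inl ((hm1 _ _).mp h')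
    · exact Or.inr ((hm2 _ _).mp h')

end Pool.Agent.Results.MP_e44043_nt.QOrRPlusMinusOne
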